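import Pool.Agent.W93.LV6
import Pool.Agent.Q26.PD.LF8

set_option autoImplicit false

/-! Level of distribution along residues with the one shift estimate. -/

namespace Pool.Agent.Q26.LV
open Finset
open Pool.Agent.H373R2.T7
open Pool.Agent.W93.AU
open Pool.Agent.W93.TD
open Pool.Agent.W93.LV
open Pool.Agent.Q26.PD

/-- from all the initial segments to a grid -/
lemma grid1 {ι : Type} (Ω : Finset ι) (p : ι → ℝ) (hp : ∀ v ∈ Ω, 0 ≤ p v) (F : ℕ → ι → ℝ) (M H : ℕ) (hH : 1 ≤ H) (E0 V τ : ℝ)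
    (hτ : 0 < τ) (hE0 : 0 ≤ E0) (hF : ∀ n ∈ Icc 1 M, ∀ v ∈ Ω, |F n v| ≤ E0)
    (hV : ∀ N ≤ M, ∑ v ∈ Ω, p v * |∑ n ∈ Icc 1 N, F n v| ≤ V) (Bad : ι → Prop) [DecidablePred Bad]
    (hBad : ∀ v ∈ Ω, Bad v → ∃ N ≤ M, E0 * H + τ < |∑ n ∈ Icc 1 N, F n v|) :
    ∑ v ∈ Ω, (if Bad v then p v else 0) ≤ ((M / H + 1 : ℕ) : ℝ) * (V / τ) := by
  have h1 : ∀ v ∈ Ω, (if Bad v then p v else 0) ≤ ∑ j ∈ range (M / H + 1), p v * |∑ n ∈ Icc 1 (H * j), F n v| / τ := by
    intro v hv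
    have hnn : ∀ j ∈ range (M / H + 1), 0 ≤ p v * |∑ n ∈ Icc 1 (H * j), F n v| / τ := fun j _ =>
      div_nonneg (mul_nonneg (hp v hv) (abs_nonneg _)) hτ.le
    split_ifs with hb
    · obtain ⟨N, hN, h2⟩ := hBad v hv hb
      have h3 : N / H ∈ range (M / H + 1) := by
        rw [mem_range]
        have := Nat.div_le_div_right (c := H) hN
        omega
      refine le_trans ?_ (single_le_sum hnn h3)
      have hg : H * (N / H) ≤ N := Nat.mul_div_le N H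
      have hg2 : N < H * (N / H) + H := by
        have := Nat.lt_mul_div_succ N (by omega : 0 < H)
        rw [mul_add, mul_one] at this
        exact this
      have h4 : ∑ n ∈ Icc 1 N, F n v = ∑ n ∈ Icc 1 (H * (N / H)), F n v + ∑ n ∈ Ioc (H * (N / H)) N, F n v := by
        rw [← sum_union]
        · congr 1
          ext n
          simp only [mem_union, mem_Icc, mem_Ioc]
          omega
        · rw [disjoint_left]
          intro n h5 h6
          rw [mem_Icc] at h5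
          rw [mem_Ioc] at h6
          omega
      have h5 : |∑ n ∈ Ioc (H * (N / H)) N, F n v| ≤ E0 * H := by
        refine (abs_sum_le_sum_abs _ _).trans ?_
        calc ∑ n ∈ Ioc (H * (N / H)) N, |F n v| ≤ ∑ n ∈ Ioc (H * (N / H)) N, E0 := by
              apply sum_le_sum
              intro n hn
              rw [mem_Ioc] at hn
              exact hF n (by rw [mem_Icc]; omega) v hv
          _ = ((N - H * (N / H) : ℕ) : ℝ) * E0 := by rw [sum_const, Nat.card_Ioc, nsmul_eq_mul]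
          _ ≤ H * E0 := mul_le_mul_of_nonneg_right (by exact_mod_cast (by omega : N - H * (N / H) ≤ H)) hE0
          _ = _ := mul_comm _ _
      have h6 : τ ≤ |∑ n ∈ Icc 1 (H * (N / H)), F n v| := by
        rw [h4] at h2
        have := abs_add_le (∑ n ∈ Icc 1 (H * (N / H)), F n v) (∑ n ∈ Ioc (H * (N / H)) N, F n v)
        linarith
      rw [le_div_iff₀ hτ]
      exact mul_le_mul_of_nonneg_left h6 (hp v hv)
    · exact sum_nonneg hnn
  refine (sum_le_sum h1).trans ?_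
  rw [sum_comm]
  calc ∑ j ∈ range (M / H + 1), ∑ v ∈ Ω, p v * |∑ n ∈ Icc 1 (H * j), F n v| / τ ≤ ∑ j ∈ range (M / H + 1), V / τ := by
        apply sum_le_sum
        intro j hj
        rw [mem_range] at hj
        rw [← sum_div]
        apply div_le_div_of_nonneg_right _ hτ.le
        apply hV
        calc H * j ≤ H * (M / H) := Nat.mul_le_mul_left _ (by omega)
          _ ≤ M := Nat.mul_div_le M H
    _ = _ := by rw [sum_const, card_range, nsmul_eq_mul]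

/-- the deterministic part -/
theorem lv_det (C0 : ℕ) (hC0 : 1 ≤ C0) (ε : ℝ) (hε : 0 < ε) (T U E1 : ℕ) (hE1 : T + U + 4 ≤ E1) : ∃ N₀ : ℕ, ∀ N, N₀ ≤ N →
    ∀ z : ℕ, Real.log N ^ E1 ≤ z → (z : ℝ) ≤ Real.log N ^ (E1 + 1) →
    ∀ lam : ℕ → ℝ, (∀ q, |lam q| ≤ Real.log N ^ T) → ∀ Q : ℕ, (Q : ℝ) ≤ (N : ℝ) ^ (1 - ε) → ∀ a : ℕ, 0 < a → a ≤ C0 * N →
    (∀ N' ≤ C0 * N, |∑ n ∈ Icc 1 N', DT lam Q (Real.log N ^ (T + U + 5)) n * dI z ((n : ℤ) + (a : ℤ))| ≤ N / Real.log N ^ (U + 1)) →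
    (∀ N' < a, |∑ n ∈ Icc 1 N', DT lam Q (Real.log N ^ (T + U + 5)) n * dI z ((a : ℤ) - (n : ℤ))| ≤ N / Real.log N ^ (U + 1)) →
    ∀ y ≤ C0 * N, |∑ q ∈ (Icc 1 Q).filter (fun q => a.Coprime q),
      lam q * (Fu (fun n => ArithmeticFunction.vonMangoldt n) y q a - (y : ℝ) / Nat.totient q)| ≤ N / Real.log N ^ U := by
  obtain ⟨Mm, hMm⟩ := exists_nat_ge (2 / ε + 1)
  obtain ⟨n1, h1⟩ := choice 1 (E1 + 1) (T + U + 3) Mm
  obtain ⟨n2, h2⟩ := Vz_inv_small (E1 + 1)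
  obtain ⟨n3, h3⟩ := pow_small (ε / 2) 54 (by positivity) (T + U + 4)
  obtain ⟨R, hR⟩ := exists_nat_ge (4 + 504 * (C0 : ℝ) + Real.log (C0 : ℝ) + 2)
  have hlC0 : 0 ≤ Real.log (C0 : ℝ) := Real.log_natCast_nonneg C0
  refine ⟨n1 + n2 + n3 + 3 ^ R + 3, fun N hN z hz1 hz2 lam hlam Q hQ a ha haN c2 c3 y hy => ?_⟩
  obtain ⟨P3, hP3⟩ : ∃ P3 : ℕ, P3 = 3 ^ R := ⟨_, rfl⟩
  rw [← hP3] at hN
  have hN1 : 1 ≤ N := by omega
  have hNr : (1 : ℝ) ≤ N := by exact_mod_cast hN1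
  have hN0 : (0 : ℝ) < N := by linarith
  obtain ⟨L, hL⟩ : ∃ L, L = Real.log (N : ℝ) := ⟨_, rfl⟩
  have hLR : (R : ℝ) ≤ L := by
    rw [hL, Real.le_log_iff_exp_le hN0]
    have h1 : Real.exp (R : ℝ) ≤ (3 : ℝ) ^ R := by
      rw [show (R : ℝ) = R * 1 by ring, Real.exp_nat_mul]
      exact pow_le_pow_left₀ (Real.exp_pos _).le (by linarith [Real.exp_one_lt_d9]) R
    refine h1.trans ?_
    exact_mod_cast (by rw [← hP3]; omega : 3 ^ R ≤ N)
  have hC0r : (1 : ℝ) ≤ C0 := by exact_mod_cast hC0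
  have hbig : 4 + 504 * (C0 : ℝ) ≤ L := by linarith
  have hL1 : 1 ≤ L := by linarith
  have hL0 : 0 < L := by linarith
  rw [← hL] at hz1 hz2 hlam c2 c3 ⊢
  have hzge : 1 ≤ z := by
    have : (1 : ℝ) ≤ z := (one_le_pow₀ hL1).trans hz1
    exact_mod_cast this
  -- the range
  obtain ⟨X, hX⟩ : ∃ X : ℕ, X = C0 * N := ⟨_, rfl⟩
  have hXN : N ≤ X := by rw [hX]; exact Nat.le_mul_of_pos_left _ (by omega)
  obtain ⟨Lx, hLx⟩ : ∃ Lx, Lx = Real.log (X : ℝ) := ⟨_, rfl⟩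
  have hLx1 : L ≤ Lx := by
    rw [hL, hLx]
    exact Real.log_le_log hN0 (by exact_mod_cast hXN)
  have hLx2 : Lx ≤ 2 * L := by
    rw [hLx, hX]
    push_cast
    rw [Real.log_mul (by positivity) hN0.ne', ← hL]
    linarith
  have hV := h2 X (by omega) z hzge (by rw [← hLx]; exact hz2.trans (pow_le_pow_left₀ hL0.le hLx1 _))
  rw [← hLx] at hV
  -- the sieve
  obtain ⟨r, hr1, hr2, _⟩ := h1 N (by omega) z (by rw [← hL]; exact hz2)
  rw [← hL] at hr1
  obtain ⟨W, hW⟩ : ∃ W : ℝ, W = ((z : ℝ) + 1) ^ r := ⟨_, rfl⟩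
  rw [← hW] at hr2
  have hW1 : 1 ≤ W := by rw [hW]; exact one_le_pow₀ (by linarith [(Nat.cast_nonneg z : (0 : ℝ) ≤ z)])
  have hQN : (Q : ℝ) * W ≤ (N : ℝ) ^ (1 - ε / 2) := by
    have hMpos : 0 < 2 / ε := by positivity
    have hM0 : (0 : ℝ) < Mm := by linarith
    have hM0' : Mm ≠ 0 := by
      rintro rfl
      simp at hM0
    have q1 : W ≤ (N : ℝ) ^ (ε / 2) := by
      calc W = (W ^ Mm) ^ ((1 : ℝ) / Mm) := by
            rw [one_div, Real.pow_rpow_inv_natCast (by linarith) hM0']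
        _ ≤ (N : ℝ) ^ ((1 : ℝ) / Mm) := Real.rpow_le_rpow (by positivity) hr2 (by positivity)
        _ ≤ (N : ℝ) ^ (ε / 2) := by
            apply Real.rpow_le_rpow_of_exponent_le hNr
            rw [div_le_div_iff₀ hM0 (by norm_num)]
            have : 2 / ε ≤ Mm := by linarith
            rw [div_le_iff₀ hε] at this
            linarith
    calc (Q : ℝ) * W ≤ (N : ℝ) ^ (1 - ε) * (N : ℝ) ^ (ε / 2) := mul_le_mul hQ q1 (by linarith) (by positivity)
      _ = (N : ℝ) ^ (1 - ε / 2) := by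
          rw [← Real.rpow_add hN0]
          congr 1
          ring
  have hQX : Q ≤ X := by
    have q1 : (Q : ℝ) ≤ N := by
      calc (Q : ℝ) ≤ (N : ℝ) ^ (1 - ε) := hQ
        _ ≤ (N : ℝ) ^ (1 : ℝ) := Real.rpow_le_rpow_of_exponent_le hNr (by linarith)
        _ = N := Real.rpow_one _
    have q2 : Q ≤ N := by exact_mod_cast q1
    omega
  have hQW : 54 * L ^ (T + U + 4) * ((Q : ℝ) * W) ≤ N := by
    have q1 := h3 N (by omega)
    rw [← hL] at q1
    calc 54 * L ^ (T + U + 4) * ((Q : ℝ) * W) ≤ (N : ℝ) ^ (ε / 2) * (N : ℝ) ^ (1 - ε / 2) :=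
          mul_le_mul q1 hQN (by positivity) (by positivity)
      _ = N := by
          rw [← Real.rpow_add hN0, show ε / 2 + (1 - ε / 2) = 1 by ring, Real.rpow_one]
  have hτ : (0 : ℝ) < L ^ (T + U + 5) := by positivity
  rw [← hX] at haN hy c2
  have s1 := c2 (y - a) (by omega)
  have s2 := c3 (a - 1) (by omega)
  have s3 := c3 (a - 1 - y) (by omega)
  have d1 := det1 lam Q y a z r X (L ^ T) Lx Lx ha hzge haN hy hQX hlam hV hLx.symm le_rfl (by linarith)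
  have d2 := three lam Q a y z X (L ^ (T + U + 5)) (L ^ T) Lx hτ hlam ha haN hy hLx.symm hV (by linarith)
  rw [← hW] at d1
  have d3 : 1 + Real.log (X : ℝ) ≤ 2 * Lx := by rw [← hLx]; linarith
  have d4 : Lx * (L ^ T / L ^ (T + U + 5) * (X * (1 + Real.log X) ^ 3)) ≤ Lx * (L ^ T / L ^ (T + U + 5) * (X * (2 * Lx) ^ 3)) := by
    have g0 := log1_nonneg X
    have g1 : 0 ≤ Lx := by linarith
    gcongr
  have d5 := fin_num L Lx N X Q W (Real.exp (3 * (1 + Real.log z) - r)) z _ _ _ C0 T U E1 hL1 (by linarith) hLx2 hN0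
    (by rw [hX]; push_cast; rfl) (by linarith) (Nat.cast_nonneg Q) hW1 (Real.exp_pos _).le (by
      refine le_trans (le_of_eq ?_) hr1
      push_cast
      ring_nf) (by exact_mod_cast hzge) hz1 (by omega) hQW hbig s1 s2 s3
  linarith

end Pool.Agent.Q26.LV
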