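import Pool.Agent.Q26.LV.A

set_option autoImplicit false

/-! Level of distribution along residues with the one shift estimate: the probability of the exceptions. -/

namespace Pool.Agent.Q26.LV
open Finset
open Pool.Agent.H373R2.T7
open Pool.Agent.W93.AU
open Pool.Agent.W93.TD
open Pool.Agent.W93.LV
open Pool.Agent.Q26.PD

open Classical in
/-- one direction -/
theorem dirZ (C0 : ℕ) (hC0 : 1 ≤ C0) (T U B0 : ℕ) : ∃ N₀ : ℕ, ∀ N, N₀ ≤ N →
    ∀ (Bc : ℕ) (c κ : ℤ) (Ω : Finset ℕ) (p : ℕ → ℝ), |c| + (((C0 * N : ℕ) : ℤ) + 1) ≤ (Bc : ℤ) * ((C0 * N : ℕ) : ℤ) →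
    (∀ v ∈ Ω, 0 ≤ p v) → (∀ v ∈ Ω, c + κ * (v : ℤ) ≤ ((C0 * N : ℕ) : ℤ)) →
    OneZ (C0 * N) (4 * T + 5 * U + 14) B0 (B0 + T + U + 6) Bc κ Ω p →
    ∀ z : ℕ, Real.log N ^ (B0 + T + U + 5) ≤ z → (z : ℝ) ≤ Real.log N ^ (B0 + T + U + 6) →
    ∀ C : ℤ, |C| = 1 → ∀ G : ℕ → ℝ, (∀ n, |G n| ≤ Real.log N ^ (2 * T + U + 5)) →
    ∑ v ∈ Ω, (if ∃ N' ≤ C0 * N, N / Real.log N ^ (U + 1) < |∑ n ∈ Icc 1 N', G n * dI z (C * (n : ℤ) + (c + κ * (v : ℤ)))| then p v else 0) ≤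
      1 / 2 * (1 / Real.log N ^ U) := by
  obtain ⟨n2, h2⟩ := Vz_inv_small (B0 + T + U + 6)
  obtain ⟨n3, h3⟩ := pow_small (1 / 2) 12 (by norm_num) (2 * T + 2 * U + 7)
  obtain ⟨R, hR⟩ := exists_nat_ge (52 * (C0 : ℝ) ^ 2 + Real.log (C0 : ℝ) + 2 ^ B0 + 2)
  have hlC0 : 0 ≤ Real.log (C0 : ℝ) := Real.log_natCast_nonneg C0
  refine ⟨n2 + n3 + 3 ^ R + 3, fun N hN Bc c κ Ω p hc hp hle hone z hz1 hz2 C hC G hG => ?_⟩
  obtain ⟨P3, hP3⟩ : ∃ P3 : ℕ, P3 = 3 ^ R := ⟨_, rfl⟩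
  rw [← hP3] at hN
  have hN1 : 1 ≤ N := by omega
  have hNr : (1 : ℝ) ≤ N := by exact_mod_cast hN1
  have hN0 : (0 : ℝ) < N := by linarith
  obtain ⟨L, hL⟩ : ∃ L, L = Real.log (N : ℝ) := ⟨_, rfl⟩
  have hLR : (R : ℝ) ≤ L := by
    rw [hL, Real.le_log_iff_exp_le hN0]
    have h1 : Real.exp (R : ℝ) ≤ (3 : ℝ) ^ R := by
      rw [show (R : ℝ) = R * 1 by ring, Real.exp_nat_mul]
      exact pow_le_pow_left₀ (Real.exp_pos _).le (by linarith [Real.exp_one_lt_d9]) R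
    refine h1.trans ?_
    exact_mod_cast (by rw [← hP3]; omega : 3 ^ R ≤ N)
  have hC0r : (1 : ℝ) ≤ C0 := by exact_mod_cast hC0
  have hC02 : (1 : ℝ) ≤ (C0 : ℝ) ^ 2 := one_le_pow₀ hC0r
  have h2B : (1 : ℝ) ≤ 2 ^ B0 := one_le_pow₀ (by norm_num)
  have hbig : 52 * (C0 : ℝ) ^ 2 ≤ L := by linarith
  have hL1 : 1 ≤ L := by linarith
  have hL0 : 0 < L := by linarith
  have h2L : (2 : ℝ) ^ B0 ≤ L := by nlinarith
  rw [← hL] at hz1 hz2 hG ⊢
  have hzge : 1 ≤ z := by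
    have : (1 : ℝ) ≤ z := (one_le_pow₀ hL1).trans hz1
    exact_mod_cast this
  obtain ⟨M, hM⟩ : ∃ M : ℕ, M = C0 * N := ⟨_, rfl⟩
  rw [← hM] at hc hle hone ⊢
  have hMN : N ≤ M := by rw [hM]; exact Nat.le_mul_of_pos_left _ (by omega)
  have hMr : (M : ℝ) = C0 * N := by rw [hM]; push_cast; ring
  have hM0 : (0 : ℝ) < M := by rw [hMr]; positivity
  obtain ⟨Lm, hLm⟩ : ∃ Lm, Lm = Real.log (M : ℝ) := ⟨_, rfl⟩
  have hLm1 : L ≤ Lm := by
    rw [hL, hLm]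
    exact Real.log_le_log hN0 (by exact_mod_cast hMN)
  have hLm2 : Lm ≤ 2 * L - 1 := by
    rw [hLm, hMr, Real.log_mul (by positivity) hN0.ne', ← hL]
    linarith
  have hzM1 : Real.log (M : ℝ) ^ B0 ≤ z := by
    rw [← hLm]
    refine le_trans ?_ hz1
    calc Lm ^ B0 ≤ (2 * L) ^ B0 := pow_le_pow_left₀ (by linarith) (by linarith) _
      _ = 2 ^ B0 * L ^ B0 := mul_pow _ _ _
      _ ≤ L * L ^ B0 := mul_le_mul_of_nonneg_right h2L (by positivity)
      _ = L ^ (B0 + 1) := by ring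
      _ ≤ L ^ (B0 + T + U + 5) := pow_le_pow_right₀ hL1 (by omega)
  have hzM2 : (z : ℝ) ≤ Real.log (M : ℝ) ^ (B0 + T + U + 6) := by
    rw [← hLm]
    exact hz2.trans (pow_le_pow_left₀ hL0.le hLm1 _)
  have hV := h2 M (by omega) z hzge hzM2
  rw [← hLm] at hV
  have hd : ∀ x : ℤ, x ≤ 2 * (M : ℤ) → |dI z x| ≤ 2 * L := by
    intro x hx
    have q1 := lamI_nonneg x
    have q2 := lamzI_nonneg z x
    have q3 := lamI_le x (2 * M : ℝ) (by nlinarith [(by exact_mod_cast (by omega : 1 ≤ M) : (1 : ℝ) ≤ M)]) (by exact_mod_cast hx)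
    have q4 := (lamzI_le z x).trans hV
    have q5 : Real.log (2 * (M : ℝ)) ≤ 2 * L := by
      rw [Real.log_mul (by norm_num) hM0.ne', ← hLm]
      have := Real.log_two_lt_d9
      linarith
    unfold dI
    rw [abs_le]
    constructor <;> linarith
  -- the grid
  obtain ⟨D, hD⟩ : ∃ D : ℝ, D = L ^ (2 * T + 2 * U + 7) := ⟨_, rfl⟩
  have hD1 : 1 ≤ D := by rw [hD]; exact one_le_pow₀ hL1
  have hDN : 12 * D ≤ N := by
    have q1 := h3 N (by omega)
    rw [← hL, ← hD] at q1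
    refine q1.trans ?_
    calc (N : ℝ) ^ (1 / 2 : ℝ) ≤ (N : ℝ) ^ (1 : ℝ) := Real.rpow_le_rpow_of_exponent_le hNr (by norm_num)
      _ = N := Real.rpow_one _
  obtain ⟨H, hH⟩ : ∃ H : ℕ, H = ⌊(N : ℝ) / (4 * D)⌋₊ := ⟨_, rfl⟩
  have hH1 : (H : ℝ) ≤ N / (4 * D) := by rw [hH]; exact Nat.floor_le (by positivity)
  have hH2 : (N : ℝ) / (4 * D) < H + 1 := by rw [hH]; exact Nat.lt_floor_add_one _
  have hND : 3 ≤ (N : ℝ) / (4 * D) := by rw [le_div_iff₀ (by positivity)]; linarith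
  have hHr : (1 : ℝ) ≤ H := by linarith
  have hHn : 1 ≤ H := by exact_mod_cast hHr
  have hH3 : (N : ℝ) ≤ 8 * D * H := by
    have : (N : ℝ) / (4 * D) ≤ 2 * H := by linarith
    rw [div_le_iff₀ (by positivity)] at this
    linarith
  obtain ⟨K, hK⟩ : ∃ K : ℝ, K = L ^ (2 * T + U + 5) := ⟨_, rfl⟩
  have hK0 : 0 < K := by rw [hK]; positivity
  have hKD : K * (2 * L) * L ^ (U + 1) = 2 * D := by
    rw [hK, hD]
    ring_nf
  have hmain := grid1 Ω p hp (fun n v => G n * dI z (C * (n : ℤ) + (c + κ * (v : ℤ)))) M H hHn (K * (2 * L))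
    (K * (M / Lm ^ (4 * T + 5 * U + 14))) (N / (2 * L ^ (U + 1))) (by positivity) (by positivity) (by
      intro n hn v hv
      rw [mem_Icc] at hn
      rw [abs_mul]
      refine mul_le_mul (by rw [hK]; exact hG n) (hd _ ?_) (abs_nonneg _) hK0.le
      have e1 : C * (n : ℤ) ≤ M := by
        have : |C * (n : ℤ)| = n := by rw [abs_mul, hC, one_mul, abs_of_nonneg (by positivity)]
        have h5 := le_abs_self (C * (n : ℤ))
        have h6 : (n : ℤ) ≤ M := by exact_mod_cast hn.2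
        linarith
      have e2 := hle v hv
      linarith) (by
      intro N' hN'
      have hC' : C ≠ 0 ∧ |C| ≤ ((1 : ℕ) : ℤ) := by
        refine ⟨?_, by rw [hC]; norm_num⟩
        rintro rfl
        simp at hC
      have h5 := one_form N' M (4 * T + 5 * U + 14) B0 (B0 + T + U + 6) Bc 1 κ Ω p hone C hC' (by rw [one_mul]; exact hN') c hc z
        hzM1 hzM2 K hK0 G (fun n _ => by rw [hK]; exact hG n)
      rw [← hLm] at h5
      exact h5)
    (fun v => ∃ N' ≤ M, N / L ^ (U + 1) < |∑ n ∈ Icc 1 N', G n * dI z (C * (n : ℤ) + (c + κ * (v : ℤ)))|) (by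
      intro v _ hb
      obtain ⟨N', hN', h5⟩ := hb
      refine ⟨N', hN', lt_of_le_of_lt ?_ h5⟩
      have h6 : K * (2 * L) * H ≤ N / (2 * L ^ (U + 1)) := by
        rw [le_div_iff₀ (by positivity)]
        calc K * (2 * L) * H * (2 * L ^ (U + 1)) = (K * (2 * L) * L ^ (U + 1)) * (2 * H) := by ring
          _ = 2 * D * (2 * H) := by rw [hKD]
          _ = 4 * D * H := by ring
          _ ≤ 4 * D * (N / (4 * D)) := mul_le_mul_of_nonneg_left hH1 (by positivity)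
          _ = N := by field_simp
      have h7 : (N : ℝ) / L ^ (U + 1) = N / (2 * L ^ (U + 1)) + N / (2 * L ^ (U + 1)) := by
        have := pow_pos hL0 (U + 1)
        field_simp
        ring
      rw [h7]
      linarith)
  refine le_trans (le_of_eq ?_) (hmain.trans ?_)
  · apply sum_congr rfl
    intro v _
    split_ifs <;> rfl
  · have h5 : ((M / H + 1 : ℕ) : ℝ) ≤ 9 * C0 * D := by
      push_cast
      have h6 : ((M / H : ℕ) : ℝ) ≤ (M : ℝ) / H := Nat.cast_div_le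
      have h7 : (M : ℝ) / H ≤ 8 * C0 * D := by
        rw [div_le_iff₀ (by linarith), hMr]
        nlinarith
      nlinarith
    have h6 : K * (M / Lm ^ (4 * T + 5 * U + 14)) / (N / (2 * L ^ (U + 1))) ≤ 2 * C0 * D / (L * L ^ (4 * T + 5 * U + 14)) := by
      have q1 : K * (M / Lm ^ (4 * T + 5 * U + 14)) ≤ K * (M / L ^ (4 * T + 5 * U + 14)) := by
        apply mul_le_mul_of_nonneg_left _ hK0.le
        apply div_le_div_of_nonneg_left hM0.le (by positivity)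
        exact pow_le_pow_left₀ hL0.le hLm1 _
      calc K * (M / Lm ^ (4 * T + 5 * U + 14)) / (N / (2 * L ^ (U + 1))) ≤ K * (M / L ^ (4 * T + 5 * U + 14)) / (N / (2 * L ^ (U + 1))) :=
            div_le_div_of_nonneg_right q1 (by positivity)
        _ = (K * (2 * L) * L ^ (U + 1)) * C0 / (L * L ^ (4 * T + 5 * U + 14)) := by
            rw [hMr]
            field_simp
        _ = 2 * C0 * D / (L * L ^ (4 * T + 5 * U + 14)) := by rw [hKD]; ring
    have h7 : 0 ≤ K * (M / Lm ^ (4 * T + 5 * U + 14)) / (N / (2 * L ^ (U + 1))) := by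
      have : 0 < Lm := by linarith
      positivity
    calc ((M / H + 1 : ℕ) : ℝ) * (K * (M / Lm ^ (4 * T + 5 * U + 14)) / (N / (2 * L ^ (U + 1))))
        ≤ (9 * C0 * D) * (2 * C0 * D / (L * L ^ (4 * T + 5 * U + 14))) := mul_le_mul h5 h6 h7 (by positivity)
      _ = 18 * (C0 : ℝ) ^ 2 * (D * D) / (L * L ^ (4 * T + 5 * U + 14)) := by ring
      _ ≤ 1 / 2 * (1 / L ^ U) := by
          have e1 : L * L ^ (4 * T + 5 * U + 14) = (D * D) * (L * L ^ U) := by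
            rw [hD]
            ring_nf
          rw [e1, mul_one_div, div_div, div_le_div_iff₀ (by positivity) (by positivity)]
          have e2 : 36 * (C0 : ℝ) ^ 2 ≤ L := by linarith
          have e3 : 0 ≤ D * D * L ^ U := by positivity
          calc 18 * (C0 : ℝ) ^ 2 * (D * D) * (2 * L ^ U) = (36 * (C0 : ℝ) ^ 2) * (D * D * L ^ U) := by ring
            _ ≤ L * (D * D * L ^ U) := mul_le_mul_of_nonneg_right e2 e3
            _ = 1 * (D * D * (L * L ^ U)) := by ring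

open Classical in
/-- level of distribution -/
theorem lvZ (C0 : ℕ) (hC0 : 1 ≤ C0) (ε : ℝ) (hε : 0 < ε) (T U B0 : ℕ) : ∃ N₀ : ℕ, ∀ N, N₀ ≤ N →
    ∀ (Bc : ℕ) (c κ : ℤ) (Ω : Finset ℕ) (p : ℕ → ℝ), |c| + (((C0 * N : ℕ) : ℤ) + 1) ≤ (Bc : ℤ) * ((C0 * N : ℕ) : ℤ) →
    (∀ v ∈ Ω, 0 ≤ p v) → (∀ v ∈ Ω, c + κ * (v : ℤ) ≤ ((C0 * N : ℕ) : ℤ)) →
    OneZ (C0 * N) (4 * T + 5 * U + 14) B0 (B0 + T + U + 6) Bc κ Ω p →
    ∀ lam : ℕ → ℝ, (∀ q, |lam q| ≤ Real.log N ^ T) → ∀ Q : ℕ, (Q : ℝ) ≤ (N : ℝ) ^ (1 - ε) →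
    ∀ Bad : ℕ → Prop, (∀ v ∈ Ω, Bad v → 0 < c + κ * (v : ℤ) ∧ ∃ y ≤ C0 * N, N / Real.log N ^ U <
      |∑ q ∈ (Icc 1 Q).filter (fun q => (c + κ * (v : ℤ)).toNat.Coprime q),
        lam q * (Fu (fun n => ArithmeticFunction.vonMangoldt n) y q (c + κ * (v : ℤ)).toNat - (y : ℝ) / Nat.totient q)|) →
    ∑ v ∈ Ω, (if Bad v then p v else 0) ≤ 1 / Real.log N ^ U := by
  obtain ⟨n1, h1⟩ := lv_det C0 hC0 ε hε T U (B0 + T + U + 5) (by omega)
  obtain ⟨n2, h2⟩ := dirZ C0 hC0 T U B0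
  obtain ⟨n3, h3⟩ := ev_L' 2
  refine ⟨n1 + n2 + n3 + 3, fun N hN Bc c κ Ω p hc hp hle hone lam hlam Q hQ Bad hBad => ?_⟩
  have hN0 : (0 : ℝ) < N := by exact_mod_cast (by omega : 0 < N)
  have hL2 : 2 ≤ Real.log (N : ℝ) := h3 N (by omega)
  obtain ⟨z, hz⟩ : ∃ z, z = ⌈Real.log (N : ℝ) ^ (B0 + T + U + 5)⌉₊ := ⟨_, rfl⟩
  have hz1 : Real.log (N : ℝ) ^ (B0 + T + U + 5) ≤ z := by rw [hz]; exact Nat.le_ceil _
  have hz3 : (z : ℝ) ≤ Real.log (N : ℝ) ^ (B0 + T + U + 6) := by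
    have q1 : (z : ℝ) < Real.log (N : ℝ) ^ (B0 + T + U + 5) + 1 := by rw [hz]; exact Nat.ceil_lt_add_one (by positivity)
    have q2 : 1 ≤ Real.log (N : ℝ) ^ (B0 + T + U + 5) := one_le_pow₀ (by linarith)
    have : Real.log (N : ℝ) ^ (B0 + T + U + 6) = Real.log (N : ℝ) * Real.log (N : ℝ) ^ (B0 + T + U + 5) := by ring
    rw [this]
    nlinarith
  have hG : ∀ n, |DT lam Q (Real.log (N : ℝ) ^ (T + U + 5)) n| ≤ Real.log (N : ℝ) ^ (2 * T + U + 5) := by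
    intro n
    refine (DT_le lam Q _ (Real.log (N : ℝ) ^ T) (by positivity) hlam n).trans (le_of_eq ?_)
    rw [← pow_add]
    congr 1
    ring
  have e1 := h2 N (by omega) Bc c κ Ω p hc hp hle hone z hz1 hz3 1 (by norm_num) _ hG
  have e2 := h2 N (by omega) Bc c κ Ω p hc hp hle hone z hz1 hz3 (-1) (by norm_num) _ hG
  have e3 : ∑ v ∈ Ω, (if Bad v then p v else 0) ≤
      ∑ v ∈ Ω, ((if ∃ N' ≤ C0 * N, N / Real.log N ^ (U + 1) < |∑ n ∈ Icc 1 N', DT lam Q (Real.log (N : ℝ) ^ (T + U + 5)) n *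
        dI z (1 * (n : ℤ) + (c + κ * (v : ℤ)))| then p v else 0) +
      (if ∃ N' ≤ C0 * N, N / Real.log N ^ (U + 1) < |∑ n ∈ Icc 1 N', DT lam Q (Real.log (N : ℝ) ^ (T + U + 5)) n *
        dI z (-1 * (n : ℤ) + (c + κ * (v : ℤ)))| then p v else 0)) := by
    apply sum_le_sum
    intro v hv
    have hpv := hp v hv
    by_cases hb : Bad v
    · rw [if_pos hb]
      obtain ⟨ha, y, hy, hlt⟩ := hBad v hv hb
      by_cases c1 : ∃ N' ≤ C0 * N, N / Real.log N ^ (U + 1) < |∑ n ∈ Icc 1 N', DT lam Q (Real.log (N : ℝ) ^ (T + U + 5)) n *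
        dI z (1 * (n : ℤ) + (c + κ * (v : ℤ)))|
      · rw [if_pos c1]
        split_ifs <;> linarith
      by_cases c2 : ∃ N' ≤ C0 * N, N / Real.log N ^ (U + 1) < |∑ n ∈ Icc 1 N', DT lam Q (Real.log (N : ℝ) ^ (T + U + 5)) n *
        dI z (-1 * (n : ℤ) + (c + κ * (v : ℤ)))|
      · rw [if_pos c2]
        split_ifs <;> linarith
      exfalso
      push Not at c1 c2
      obtain ⟨a, haa⟩ : ∃ a : ℕ, a = (c + κ * (v : ℤ)).toNat := ⟨_, rfl⟩
      have haz : (a : ℤ) = c + κ * (v : ℤ) := by rw [haa, Int.toNat_of_nonneg ha.le]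
      rw [← haz] at c1 c2 ha
      rw [← haa] at hlt
      have haM : a ≤ C0 * N := by
        have := hle v hv
        rw [← haz] at this
        exact_mod_cast this
      have h9 := h1 N (by omega) z hz1 (by
        have : B0 + T + U + 5 + 1 = B0 + T + U + 6 := by ring
        rw [this]
        exact hz3) lam hlam Q hQ a (by exact_mod_cast ha) haM (fun N' hN' => by
          have := c1 N' hN'
          simp only [one_mul] at this
          exact this) (fun N' hN' => by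
          have := c2 N' (by omega)
          have e5 : ∀ n : ℕ, -1 * (n : ℤ) + (a : ℤ) = (a : ℤ) - (n : ℤ) := fun n => by ring
          simp only [e5] at this
          exact this) y hy
      linarith
    · rw [if_neg hb]
      apply add_nonneg
      · split_ifs
        · exact hpv
        · exact le_rfl
      · split_ifs
        · exact hpv
        · exact le_rfl
  rw [sum_add_distrib] at e3
  linarith

end Pool.Agent.Q26.LV
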