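import Pool.Agent.Q26.LV.B
import Pool.Agent.Q26.PD.RS

set_option autoImplicit false

/-! Level of distribution: few elements of arbitrary sets, random sums. -/

namespace Pool.Agent.Q26.LV
open Finset
open Pool.Agent.H373R2.T7
open Pool.Agent.W93.AU
open Pool.Agent.W93.TD
open Pool.Agent.W93.LV
open Pool.Agent.Q26.PD
open Pool.Agent.Y885 (las_lawP TLaw)

/-- the weighted sum over the moduli `q ≤ N ^ (1 - ε)` coprime to `a` -/
noncomputable def WS (lam : ℕ → ℝ) (ε : ℝ) (N y a : ℕ) : ℝ :=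
  ∑ q ∈ (Icc 1 ⌊(N : ℝ) ^ (1 - ε)⌋₊).filter (fun q => a.Coprime q),
    lam q * (Fu (fun n => ArithmeticFunction.vonMangoldt n) y q a - (y : ℝ) / Nat.totient q)

open Classical in
/-- several systems of coefficients at once -/
lemma several {J : ℕ} {Ω : Finset ℕ} (p : ℕ → ℝ) (hp : ∀ v ∈ Ω, 0 ≤ p v) (Bad : Fin J → ℕ → Prop) (δ : ℝ)
    (h : ∀ j, ∑ v ∈ Ω, (if Bad j v then p v else 0) ≤ δ) :
    ∑ v ∈ Ω, (if ∃ j, Bad j v then p v else 0) ≤ J * δ := by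
  calc ∑ v ∈ Ω, (if ∃ j, Bad j v then p v else 0) ≤ ∑ v ∈ Ω, ∑ j, (if Bad j v then p v else 0) := by
        apply sum_le_sum
        intro v hv
        have hnn : ∀ j ∈ (univ : Finset (Fin J)), 0 ≤ (if Bad j v then p v else 0) := by
          intro j _
          split_ifs
          · exact hp v hv
          · exact le_rfl
        by_cases hb : ∃ j, Bad j v
        · rw [if_pos hb]
          obtain ⟨j, hj⟩ := hb
          refine le_trans ?_ (single_le_sum hnn (mem_univ j))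
          rw [if_pos hj]
        · rw [if_neg hb]
          exact sum_nonneg hnn
    _ = ∑ j, ∑ v ∈ Ω, (if Bad j v then p v else 0) := sum_comm
    _ ≤ ∑ _j : Fin J, δ := sum_le_sum fun j _ => h j
    _ = _ := by rw [sum_const, card_univ, Fintype.card_fin, nsmul_eq_mul]

open Classical in
/-- few elements of arbitrary sets -/
theorem lv_las (l P T U : ℕ) (hl : 2 ≤ l) (hP : 1 ≤ P) : ∃ Cst : ℝ, ∀ (Hh B : ℕ) (ε : ℝ), 0 < ε → ∃ N₀ : ℕ,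
    ∀ A : Set ℕ, (∀ x : ℕ, 1 ≤ x → ∃ a ∈ A, x ≤ a ∧ a ≤ l * x) → ∀ N : ℕ, N₀ ≤ N → ∀ a : ℤ, |a| ≤ (B : ℤ) * N →
    ∀ J : ℕ, (J : ℝ) ≤ Real.log N ^ T → ∀ lam : Fin J → ℕ → ℝ, (∀ j q, |lam j q| ≤ Real.log N ^ T) →
    ∃ S : Finset ℕ, (∀ x ∈ S, x ∈ A ∧ Real.log N ^ Hh ≤ x ∧ (x : ℝ) ≤ N / Real.log N ^ Hh) ∧
      (S.card : ℝ) ≤ Cst * Real.log (Real.log N) ^ 2 ∧ P ∣ ∑ x ∈ S, x ∧
      (0 < a + ∑ x ∈ S, (x : ℤ) → ∀ j, ∀ y ≤ B * N, |WS (lam j) ε N y (a + ∑ x ∈ S, (x : ℤ)).toNat| ≤ N / Real.log N ^ U) := by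
  obtain ⟨U', hU'⟩ : ∃ U', U' = U + T + 1 := ⟨_, rfl⟩
  obtain ⟨b, hb, Cst, hC⟩ := las_lawP l P hl hP (2 * ((4 * T + 5 * U' + 14) + 1) + 6)
  refine ⟨Cst, fun Hh B ε hε => ?_⟩
  obtain ⟨C0, hC0⟩ : ∃ C0, C0 = B + 1 := ⟨_, rfl⟩
  have hC01 : 1 ≤ C0 := by omega
  obtain ⟨e, he⟩ : ∃ e, e = (1 + 3 + 1) * C0 := ⟨_, rfl⟩
  obtain ⟨c, n0, h0⟩ := hC Hh e
  obtain ⟨B0, h1⟩ := tlZ b 20 c hb (by norm_num) (4 * T + 5 * U' + 14) (b ^ (e + 1)) 1 3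
  obtain ⟨n1, h1⟩ := h1 (B0 + T + U' + 6)
  obtain ⟨n2, h2⟩ := lvZ C0 hC01 ε hε T U' B0
  obtain ⟨n3, h3⟩ := ev_L' 2
  refine ⟨n0 + n1 + n2 + n3 + 2, fun A hA N hN a ha J hJ lam hlam => ?_⟩
  have hN0 : 0 < N := by omega
  have hNM : N ≤ C0 * N := Nat.le_mul_of_pos_left _ (by omega)
  have hL := h3 N (by omega)
  obtain ⟨K, hK⟩ : ∃ K, K = Nat.log b N + 1 := ⟨_, rfl⟩
  have hKlow : b ^ (K - 1) ≤ N := by
    rw [hK, Nat.add_sub_cancel]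
    exact Nat.pow_log_le_self b (by omega)
  have hKup : N < b ^ K := by rw [hK]; exact Nat.lt_pow_succ_log_self (by omega) _
  have hbe : (1 + 3 + 1) * C0 ≤ b ^ e := by
    rw [← he]
    exact (Nat.lt_pow_self (by omega)).le
  obtain ⟨n, Ω, pr, Sf, g1, g2, g3⟩ := h0 A hA N (by omega)
  have g4 : ∀ ω ∈ Ω, ∑ x ∈ Sf ω, x ≤ N := fun ω hω => by
    have := (g3 ω hω).2.2.1
    omega
  have h4 := h1 (C0 * N) (by omega) (K + e) (by
      calc (1 + 3 + 1) * (C0 * N) = (1 + 3 + 1) * C0 * N := by ring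
        _ ≤ b ^ e * b ^ K := Nat.mul_le_mul hbe hKup.le
        _ = _ := by rw [← pow_add, add_comm]) (by
      calc b ^ (K + e) = b ^ (e + 1) * b ^ (K - 1) := by rw [← pow_add]; congr 1; omega
        _ ≤ b ^ (e + 1) * (C0 * N) := Nat.mul_le_mul_left _ (hKlow.trans hNM)) (Fin n → ℕ) Ω (fun _ => pr)
    (fun ω => ∑ x ∈ Sf ω, x) (by
      rw [← hK] at g2
      exact g2) g1 (fun ω hω => by
      have := g4 ω hω
      omega)
  have hval : ∀ v ∈ Ω.image (fun ω => ∑ x ∈ Sf ω, x), ∃ ω ∈ Ω, v = ∑ x ∈ Sf ω, x := by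
    intro v hv
    rw [mem_image] at hv
    obtain ⟨ω, h5, h6⟩ := hv
    exact ⟨ω, h5, h6.symm⟩
  have hp0 : ∀ v ∈ Ω.image (fun ω => ∑ x ∈ Sf ω, x), 0 ≤ pf Ω (fun _ => pr) (fun ω => ∑ x ∈ Sf ω, x) v := fun v _ =>
    pf_nonneg _ _ (fun ω hω => g2.nonneg ω hω) _ v
  have hp1 : ∑ v ∈ Ω.image (fun ω => ∑ x ∈ Sf ω, x), pf Ω (fun _ => pr) (fun ω => ∑ x ∈ Sf ω, x) v = 1 := by
    have h5 := pf_one Ω (fun _ => pr) g1 (fun ω => ∑ x ∈ Sf ω, x)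
    convert h5
  obtain ⟨BadJ, hBadJ⟩ : ∃ BadJ : Fin J → ℕ → Prop, BadJ = fun (j : Fin J) (v : ℕ) => 0 < a + 1 * (v : ℤ) ∧ ∃ y ≤ C0 * N, N / Real.log N ^ U' <
      |∑ q ∈ (Icc 1 ⌊(N : ℝ) ^ (1 - ε)⌋₊).filter (fun q => (a + 1 * (v : ℤ)).toNat.Coprime q),
        lam j q * (Fu (fun n => ArithmeticFunction.vonMangoldt n) y q (a + 1 * (v : ℤ)).toNat - (y : ℝ) / Nat.totient q)| := ⟨_, rfl⟩
  have hmain : ∀ j, ∑ v ∈ Ω.image (fun ω => ∑ x ∈ Sf ω, x),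
      (if BadJ j v then pf Ω (fun _ => pr) (fun ω => ∑ x ∈ Sf ω, x) v else 0) ≤ 1 / Real.log N ^ U' := by
    intro j
    have h5 := h2 N (by omega) 3 a 1 (Ω.image (fun ω => ∑ x ∈ Sf ω, x)) (pf Ω (fun _ => pr) (fun ω => ∑ x ∈ Sf ω, x)) (by
        have e1 : |a| ≤ ((C0 * N : ℕ) : ℤ) := by
          refine ha.trans ?_
          rw [hC0]
          push_cast
          nlinarith [(Nat.cast_nonneg N : (0 : ℤ) ≤ N)]
        have e2 : (1 : ℤ) ≤ ((C0 * N : ℕ) : ℤ) := by exact_mod_cast (by omega : 1 ≤ C0 * N)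
        push_cast at e1 e2 ⊢
        linarith) hp0 (by
        intro v hv
        obtain ⟨ω, hω, rfl⟩ := hval v hv
        have e1 := (abs_le.1 ha).2
        have e2 : ((∑ x ∈ Sf ω, x : ℕ) : ℤ) ≤ N := by exact_mod_cast g4 ω hω
        rw [hC0]
        push_cast at e2 ⊢
        linarith) (by
        intro c' hc' z hz1 hz2 Kc hKc G hG
        have h5 := h4.2 c' hc' z hz1 hz2 Kc hKc G hG
        convert h5) (lam j) (hlam j) ⌊(N : ℝ) ^ (1 - ε)⌋₊ (Nat.floor_le (by positivity)) (BadJ j) (by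
        intro v _ hb
        rw [hBadJ] at hb
        exact hb)
    exact h5
  have hall := several (Ω := Ω.image (fun ω => ∑ x ∈ Sf ω, x)) (pf Ω (fun _ => pr) (fun ω => ∑ x ∈ Sf ω, x)) hp0 BadJ _ hmain
  have hlt : (J : ℝ) * (1 / Real.log N ^ U') < 1 := by
    rw [mul_one_div, div_lt_one (by positivity)]
    calc (J : ℝ) ≤ Real.log N ^ T := hJ
      _ < Real.log N ^ U' := pow_lt_pow_right₀ (by linarith) (by omega)
  have hex : ∃ v ∈ Ω.image (fun ω => ∑ x ∈ Sf ω, x), ¬ ∃ j, BadJ j v := by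
    by_contra hcon
    push Not at hcon
    have h6 : ∑ v ∈ Ω.image (fun ω => ∑ x ∈ Sf ω, x), (if ∃ j, BadJ j v then pf Ω (fun _ => pr) (fun ω => ∑ x ∈ Sf ω, x) v else 0) = 1 := by
      rw [← hp1]
      apply sum_congr rfl
      intro v hv
      rw [if_pos (hcon v hv)]
    rw [h6] at hall
    linarith
  obtain ⟨v, hv, hgood⟩ := hex
  obtain ⟨ω, hω, rfl⟩ := hval v hv
  refine ⟨Sf ω, (g3 ω hω).1, (g3 ω hω).2.1, (g3 ω hω).2.2.2, fun hpos j y hy => ?_⟩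
  push Not at hgood
  have h7 := hgood j
  rw [hBadJ] at h7
  have e1 : a + 1 * ((∑ x ∈ Sf ω, x : ℕ) : ℤ) = a + ∑ x ∈ Sf ω, (x : ℤ) := by
    push_cast
    ring
  dsimp only at h7
  rw [e1] at h7
  by_contra hcon
  push Not at hcon
  apply h7
  refine ⟨hpos, y, hy.trans (Nat.mul_le_mul_right _ (by omega)), ?_⟩
  refine lt_of_le_of_lt ?_ hcon
  apply div_le_div_of_nonneg_left (Nat.cast_nonneg _) (by positivity)
  exact pow_le_pow_right₀ (by linarith) (by omega)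

end Pool.Agent.Q26.LV
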