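import Pool.Agent.Q26.LV.C
import Pool.Agent.Q26.PD.RS2

set_option autoImplicit false

/-! Level of distribution: random sums, integers with restricted digits. -/

namespace Pool.Agent.Q26.LV
open Finset
open Pool.Agent.H373R2.T7
open Pool.Agent.W93.AU
open Pool.Agent.W93.TD
open Pool.Agent.W93.LV
open Pool.Agent.Q26.PD
open Pool.Agent.Y885 (TLaw Rich rand_law geo_le)

open Classical in
/-- random sums -/
theorem lv_rand (b : ℕ) (hb : 2 ≤ b) (B D T U : ℕ) (hB : 1 ≤ B) (η δ ε : ℝ) (hη : 0 < η) (hδ : 0 < δ) (hε : 0 < ε) :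
    ∃ X₀ : ℕ, ∀ X, X₀ ≤ X → ∀ k : ℕ, X ≤ B * b ^ k → b ^ k ≤ B * X → ∀ (J : Finset ℕ) (S : ℕ → Finset ℤ) (p : ℕ → ℤ → ℝ),
      Rich δ D k J →
      (∀ j < k, (∀ x ∈ S j, 0 ≤ p j x ∧ |x| ≤ (B : ℤ) * (b : ℤ) ^ j) ∧ ∑ x ∈ S j, p j x = 1) →
      (∀ j ∈ J, ∀ y : ℤ, ∑ x ∈ S j, (if y ≤ x ∧ (B : ℤ) * (x - y) ≤ (b : ℤ) ^ j then p j x else 0) ≤ 1 - η) →
      ∀ c : ℤ, |c| ≤ (B : ℤ) * X → ∀ L : ℕ, (L : ℝ) ≤ Real.log X ^ T → ∀ lam : Fin L → ℕ → ℝ, (∀ l q, |lam l q| ≤ Real.log X ^ T) →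
      ∑ x ∈ Fintype.piFinset (fun j : Fin k => S j),
        (if ¬ (0 < c + ∑ j, x j → ∀ l, ∀ y ≤ B * X, |WS (lam l) ε X y (c + ∑ j, x j).toNat| ≤ X / Real.log X ^ U) then
          ∏ j : Fin k, p j (x j) else 0) ≤ 1 / Real.log X ^ U := by
  obtain ⟨U', hU'⟩ : ∃ U', U' = U + T + 1 := ⟨_, rfl⟩
  obtain ⟨C0, hC0⟩ : ∃ C0, C0 = B + B ^ 2 := ⟨_, rfl⟩
  have hC01 : 1 ≤ C0 := by rw [hC0]; omega
  obtain ⟨E, hE, h0⟩ := rand_law b hb B D hB η δ hη hδ
  obtain ⟨e, he⟩ : ∃ e, e = (1 + 3 + 2) * C0 * B := ⟨_, rfl⟩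
  obtain ⟨c₁, k₀, h0⟩ := h0 e (2 * ((4 * T + 5 * U' + 14) + 1) + 6)
  obtain ⟨B0, h1⟩ := tlZ b E c₁ hb hE (4 * T + 5 * U' + 14) (b ^ e * B) 2 3
  obtain ⟨n1, h1⟩ := h1 (B0 + T + U' + 6)
  obtain ⟨n2, h2⟩ := lvZ C0 hC01 ε hε T U' B0
  obtain ⟨n3, h3⟩ := ev_L' 2
  refine ⟨n1 + n2 + n3 + B * b ^ k₀ + 2, fun X hX k hk1 hk2 J S p hJ hp hsp c hc L hL lam hlam => ?_⟩
  have hX0 : 0 < X := by omega
  have hXM : X ≤ C0 * X := Nat.le_mul_of_pos_left _ (by omega)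
  have hlog := h3 X (by omega)
  obtain ⟨T0, hT0⟩ : ∃ T0 : ℕ, T0 = B * b ^ k := ⟨_, rfl⟩
  have hTX : T0 ≤ B ^ 2 * X := by
    rw [hT0]
    calc B * b ^ k ≤ B * (B * X) := Nat.mul_le_mul_left _ hk2
      _ = _ := by ring
  have habs : ∀ ω ∈ Fintype.piFinset (fun j : Fin k => S j), |∑ j, ω j| ≤ (T0 : ℤ) := by
    intro ω hω
    rw [Fintype.mem_piFinset] at hω
    have g1 : |∑ j : Fin k, ω j| ≤ ∑ j : Fin k, (B : ℤ) * (b : ℤ) ^ (j : ℕ) :=
      (abs_sum_le_sum_abs _ _).trans (sum_le_sum fun j _ => ((hp j j.2).1 _ (hω j)).2)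
    rw [← mul_sum] at g1
    have g2 := geo_le b hb k
    rw [hT0]
    push_cast
    exact g1.trans (mul_le_mul_of_nonneg_left g2 (by positivity))
  obtain ⟨f, hf⟩ : ∃ f : (Fin k → ℤ) → ℕ, f = fun ω => ((T0 : ℤ) + ∑ j, ω j).toNat := ⟨_, rfl⟩
  have hfz : ∀ ω ∈ Fintype.piFinset (fun j : Fin k => S j), (f ω : ℤ) = (T0 : ℤ) + ∑ j, ω j := by
    intro ω hω
    have h3 := (abs_le.1 (habs ω hω)).1
    rw [hf]
    dsimp only
    rw [Int.toNat_of_nonneg (by linarith)]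
  have hfX : ∀ ω ∈ Fintype.piFinset (fun j : Fin k => S j), f ω ≤ 2 * (C0 * X) := by
    intro ω hω
    have h3 := (abs_le.1 (habs ω hω)).2
    have h4 := hfz ω hω
    have h5 : (f ω : ℤ) ≤ 2 * (T0 : ℤ) := by linarith
    have h6 : f ω ≤ 2 * T0 := by exact_mod_cast h5
    calc f ω ≤ 2 * T0 := h6
      _ ≤ 2 * (B ^ 2 * X) := Nat.mul_le_mul_left _ hTX
      _ ≤ _ := Nat.mul_le_mul_left _ (Nat.mul_le_mul_right _ (by omega))
  have hki : k₀ ≤ k := k_large b B X k k₀ hb (by omega) hk1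
  have hlaw : TLaw b E c₁ (2 * ((4 * T + 5 * U' + 14) + 1) + 6) (k + e)
      (Fintype.piFinset (fun j : Fin k => S j)) (fun ω => ∏ j : Fin k, p j (ω j)) (fun ω => (f ω : ℤ)) := by
    have h3 := h0 k hki J S p (T0 : ℤ) hJ hp hsp
    refine h3.congr ?_
    intro ω hω
    exact hfz ω hω
  have hsum : ∑ ω ∈ Fintype.piFinset (fun j : Fin k => S j), ∏ j : Fin k, p j (ω j) = 1 := by
    rw [← prod_univ_sum]
    exact prod_eq_one fun j _ => (hp j j.2).2
  have hbe : (1 + 3 + 2) * C0 * B ≤ b ^ e := by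
    rw [← he]
    exact (Nat.lt_pow_self (by omega)).le
  have h4 := h1 (C0 * X) (by omega) (k + e) (by
      calc (1 + 3 + 2) * (C0 * X) = (1 + 3 + 2) * C0 * X := by ring
        _ ≤ (1 + 3 + 2) * C0 * (B * b ^ k) := Nat.mul_le_mul_left _ hk1
        _ = (1 + 3 + 2) * C0 * B * b ^ k := by ring
        _ ≤ b ^ e * b ^ k := Nat.mul_le_mul_right _ hbe
        _ = _ := by rw [← pow_add, add_comm]) (by
      calc b ^ (k + e) = b ^ e * b ^ k := by rw [← pow_add, add_comm]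
        _ ≤ b ^ e * (B * X) := Nat.mul_le_mul_left _ hk2
        _ = b ^ e * B * X := by ring
        _ ≤ b ^ e * B * (C0 * X) := Nat.mul_le_mul_left _ hXM) (Fin k → ℤ) (Fintype.piFinset (fun j : Fin k => S j))
    (fun ω => ∏ j : Fin k, p j (ω j)) f hlaw hsum hfX
  have hval : ∀ v ∈ (Fintype.piFinset (fun j : Fin k => S j)).image f,
      ∃ ω ∈ Fintype.piFinset (fun j : Fin k => S j), v = f ω := by
    intro v hv
    rw [mem_image] at hv
    obtain ⟨ω, h5, h6⟩ := hv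
    exact ⟨ω, h5, h6.symm⟩
  have hp0 : ∀ ω ∈ Fintype.piFinset (fun j : Fin k => S j), 0 ≤ ∏ j : Fin k, p j (ω j) := by
    intro ω hω
    rw [Fintype.mem_piFinset] at hω
    exact prod_nonneg fun j _ => ((hp j j.2).1 _ (hω j)).1
  have hc1 : |c - (T0 : ℤ)| ≤ ((C0 * X : ℕ) : ℤ) := by
    have g1 := abs_sub c (T0 : ℤ)
    have g2 : |(T0 : ℤ)| ≤ ((B ^ 2 * X : ℕ) : ℤ) := by
      rw [abs_of_nonneg (by positivity)]
      exact_mod_cast hTX
    rw [hC0]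
    push_cast at g2 ⊢
    nlinarith
  have hle : ∀ v ∈ (Fintype.piFinset (fun j : Fin k => S j)).image f, c - (T0 : ℤ) + 1 * (v : ℤ) ≤ ((C0 * X : ℕ) : ℤ) := by
    intro v hv
    obtain ⟨ω, hω, rfl⟩ := hval v hv
    have g1 := (abs_le.1 (habs ω hω)).2
    have g2 := hfz ω hω
    have g3 := (abs_le.1 hc).2
    have g4 : (T0 : ℤ) ≤ ((B ^ 2 * X : ℕ) : ℤ) := by exact_mod_cast hTX
    rw [hC0]
    push_cast at g4 ⊢
    nlinarith
  obtain ⟨BadL, hBadL⟩ : ∃ BadL : Fin L → ℕ → Prop, BadL = fun (l : Fin L) (v : ℕ) => 0 < c - (T0 : ℤ) + 1 * (v : ℤ) ∧ ∃ y ≤ C0 * X,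
      X / Real.log X ^ U' < |∑ q ∈ (Icc 1 ⌊(X : ℝ) ^ (1 - ε)⌋₊).filter (fun q => (c - (T0 : ℤ) + 1 * (v : ℤ)).toNat.Coprime q),
        lam l q * (Fu (fun n => ArithmeticFunction.vonMangoldt n) y q (c - (T0 : ℤ) + 1 * (v : ℤ)).toNat - (y : ℝ) / Nat.totient q)| := ⟨_, rfl⟩
  have hmain : ∀ l, ∑ v ∈ (Fintype.piFinset (fun j : Fin k => S j)).image f,
      (if BadL l v then pf (Fintype.piFinset (fun j : Fin k => S j)) (fun ω => ∏ j : Fin k, p j (ω j)) f v else 0) ≤ 1 / Real.log X ^ U' := by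
    intro l
    exact h2 X (by omega) 3 (c - (T0 : ℤ)) 1 _ (pf (Fintype.piFinset (fun j : Fin k => S j)) (fun ω => ∏ j : Fin k, p j (ω j)) f) (by
        have e2 : (1 : ℤ) ≤ ((C0 * X : ℕ) : ℤ) := by exact_mod_cast (by omega : 1 ≤ C0 * X)
        push_cast at hc1 e2 ⊢
        linarith) (fun v _ => pf_nonneg _ _ hp0 _ v) hle (by
        intro c' hc' z hz1 hz2 Kc hKc G hG
        have h5 := h4.2 c' hc' z hz1 hz2 Kc hKc G hG
        convert h5) (lam l) (hlam l) ⌊(X : ℝ) ^ (1 - ε)⌋₊ (Nat.floor_le (by positivity)) (BadL l) (by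
        intro v _ hb
        rw [hBadL] at hb
        exact hb)
  have hall := several (Ω := (Fintype.piFinset (fun j : Fin k => S j)).image f)
    (pf (Fintype.piFinset (fun j : Fin k => S j)) (fun ω => ∏ j : Fin k, p j (ω j)) f) (fun v _ => pf_nonneg _ _ hp0 _ v) BadL _ hmain
  have hlt : (L : ℝ) * (1 / Real.log X ^ U') ≤ 1 / Real.log X ^ U := by
    rw [mul_one_div, div_le_div_iff₀ (by positivity) (by positivity), one_mul]
    calc (L : ℝ) * Real.log X ^ U ≤ Real.log X ^ T * Real.log X ^ U := mul_le_mul_of_nonneg_right hL (by positivity)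
      _ = Real.log X ^ (T + U) := by rw [pow_add]
      _ ≤ Real.log X ^ U' := pow_le_pow_right₀ (by linarith) (by omega)
  refine le_trans ?_ (hall.trans hlt)
  have h6 := pf_sum (Fintype.piFinset (fun j : Fin k => S j)) (fun ω => ∏ j : Fin k, p j (ω j)) f
    (fun v => if ∃ l, BadL l v then 1 else 0)
  have h7 : ∑ v ∈ (Fintype.piFinset (fun j : Fin k => S j)).image f,
      (if ∃ l, BadL l v then pf (Fintype.piFinset (fun j : Fin k => S j)) (fun ω => ∏ j : Fin k, p j (ω j)) f v else 0) =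
      ∑ ω ∈ Fintype.piFinset (fun j : Fin k => S j), (∏ j : Fin k, p j (ω j)) * (if ∃ l, BadL l (f ω) then 1 else 0) := by
    refine Eq.trans ?_ (h6.trans ?_)
    · apply sum_congr
      · ext v
        simp only [mem_image]
      · intro v _
        split_ifs
        · rw [mul_one]
        · rw [mul_zero]
    · rfl
  rw [h7]
  apply sum_le_sum
  intro ω hω
  have hω0 := hp0 ω hω
  by_cases hg : 0 < c + ∑ j, ω j → ∀ l, ∀ y ≤ B * X, |WS (lam l) ε X y (c + ∑ j, ω j).toNat| ≤ X / Real.log X ^ U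
  · rw [if_neg (not_not.2 hg)]
    apply mul_nonneg hω0
    split_ifs <;> norm_num
  · rw [if_pos hg, if_pos, mul_one]
    push Not at hg
    obtain ⟨hpos, l, y, hy, hlt⟩ := hg
    refine ⟨l, ?_⟩
    have e1 : c - (T0 : ℤ) + 1 * (f ω : ℤ) = c + ∑ j, ω j := by
      rw [hfz ω hω]
      ring
    rw [hBadL]
    dsimp only
    rw [e1]
    refine ⟨hpos, y, hy.trans (Nat.mul_le_mul_right _ (by omega)), ?_⟩
    refine lt_of_le_of_lt ?_ hlt
    apply div_le_div_of_nonneg_left (Nat.cast_nonneg _) (by positivity)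
    exact pow_le_pow_right₀ (by linarith) (by omega)

open Classical in
/-- from random sums to integers with restricted and prescribed digits -/
theorem digits_transfer (b B' k : ℕ) (hb : 2 ≤ b) (hB' : b ≤ B') (J : Finset ℕ) (A : ℕ → Finset ℕ)
    (hA : ∀ j < k, (A j).Nonempty ∧ ∀ a ∈ A j, a < b) (hAJ : ∀ j ∈ J, 2 ≤ (A j).card) (Bad : ℤ → Prop) (θ : ℝ)
    (h : ∀ (S : ℕ → Finset ℤ) (p : ℕ → ℤ → ℝ),
      (∀ j < k, (∀ x ∈ S j, 0 ≤ p j x ∧ |x| ≤ (B' : ℤ) * (b : ℤ) ^ j) ∧ ∑ x ∈ S j, p j x = 1) →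
      (∀ j ∈ J, ∀ y : ℤ, ∑ x ∈ S j, (if y ≤ x ∧ (B' : ℤ) * (x - y) ≤ (b : ℤ) ^ j then p j x else 0) ≤ 1 - 1 / 2) →
      ∑ x ∈ Fintype.piFinset (fun j : Fin k => S j), (if Bad (∑ j, x j) then ∏ j : Fin k, p j (x j) else 0) ≤ θ) :
    (((range (b ^ k)).filter (fun n => (∀ j < k, n / b ^ j % b ∈ A j) ∧ Bad n)).card : ℝ) ≤
      (∏ j ∈ range k, ((A j).card : ℝ)) * θ := by
  obtain ⟨S, hS⟩ : ∃ S : ℕ → Finset ℤ, S = fun j => (A j).image (fun a : ℕ => (a : ℤ) * (b : ℤ) ^ j) := ⟨_, rfl⟩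
  obtain ⟨p, hp⟩ : ∃ p : ℕ → ℤ → ℝ, p = fun j _ => 1 / ((A j).card : ℝ) := ⟨_, rfl⟩
  have hb0 : 0 < b := by omega
  have hbz : ∀ j : ℕ, (0 : ℤ) < (b : ℤ) ^ j := fun j => by positivity
  have hinj : ∀ j : ℕ, Function.Injective (fun a : ℕ => (a : ℤ) * (b : ℤ) ^ j) := by
    intro j x y hxy
    have := mul_right_cancel₀ (hbz j).ne' hxy
    exact_mod_cast this
  have hA0 : ∀ j < k, (0 : ℝ) < (A j).card := fun j hj => by exact_mod_cast card_pos.2 (hA j hj).1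
  have h1 := h S p (by
      intro j hj
      constructor
      · intro x hx
        rw [hp]
        refine ⟨by positivity, ?_⟩
        rw [hS] at hx
        obtain ⟨a, ha, rfl⟩ := mem_image.1 hx
        have h1 := (hA j hj).2 a ha
        rw [abs_of_nonneg (by positivity)]
        apply mul_le_mul_of_nonneg_right _ (by positivity)
        exact_mod_cast h1.le.trans hB'
      · rw [hS, hp]
        simp only
        rw [sum_image (fun x _ y _ h => hinj j h), sum_const, nsmul_eq_mul]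
        have := hA0 j hj
        field_simp) (by
      intro j hj y
      have h2 : (2 : ℝ) ≤ (A j).card := by exact_mod_cast hAJ j hj
      rw [hS, hp]
      simp only
      rw [← sum_filter, sum_const, nsmul_eq_mul]
      have h3 : (((A j).image (fun a : ℕ => (a : ℤ) * (b : ℤ) ^ j)).filter (fun x => y ≤ x ∧ (B' : ℤ) * (x - y) ≤ (b : ℤ) ^ j)).card ≤ 1 := by
        rw [card_le_one]
        intro x hx x' hx'
        rw [mem_filter] at hx hx'
        obtain ⟨a, _, rfl⟩ := mem_image.1 hx.1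
        obtain ⟨a', _, rfl⟩ := mem_image.1 hx'.1
        have hbj := hbz j
        have h2b : (2 : ℤ) ≤ B' := by
          have := hb.trans hB'
          exact_mod_cast this
        have key : ∀ u v : ℕ, y ≤ (u : ℤ) * (b : ℤ) ^ j → (B' : ℤ) * ((v : ℤ) * (b : ℤ) ^ j - y) ≤ (b : ℤ) ^ j → v ≤ u := by
          intro u v h4 h5
          by_contra hcon
          push Not at hcon
          have h6 : (u : ℤ) + 1 ≤ v := by exact_mod_cast hcon
          have h7 : ((u : ℤ) + 1) * (b : ℤ) ^ j ≤ v * (b : ℤ) ^ j := mul_le_mul_of_nonneg_right h6 hbj.le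
          have h8 : (b : ℤ) ^ j ≤ (v : ℤ) * (b : ℤ) ^ j - y := by linarith
          have h9 : (B' : ℤ) * (b : ℤ) ^ j ≤ (B' : ℤ) * ((v : ℤ) * (b : ℤ) ^ j - y) := mul_le_mul_of_nonneg_left h8 (by positivity)
          nlinarith
        have h4 := key a a' hx.2.1 hx'.2.2
        have h5 := key a' a hx'.2.1 hx.2.2
        rw [le_antisymm h4 h5]
      have h4 : ((((A j).image (fun a : ℕ => (a : ℤ) * (b : ℤ) ^ j)).filter (fun x => y ≤ x ∧ (B' : ℤ) * (x - y) ≤ (b : ℤ) ^ j)).card : ℝ) ≤ 1 := by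
        exact_mod_cast h3
      have h5 : 1 / ((A j).card : ℝ) ≤ 1 / 2 := one_div_le_one_div_of_le (by norm_num) h2
      have h6 : 0 ≤ 1 / ((A j).card : ℝ) := by positivity
      nlinarith)
  obtain ⟨Q, hQ⟩ : ∃ Q, Q = (range (b ^ k)).filter (fun n => (∀ j < k, n / b ^ j % b ∈ A j) ∧ Bad n) := ⟨_, rfl⟩
  rw [← hQ]
  obtain ⟨ph, hph⟩ : ∃ ph : ℕ → (Fin k → ℤ), ph = fun (n : ℕ) (j : Fin k) => ((n / b ^ (j : ℕ) % b : ℕ) : ℤ) * (b : ℤ) ^ (j : ℕ) := ⟨_, rfl⟩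
  have hQm : ∀ n ∈ Q, n < b ^ k ∧ (∀ j < k, n / b ^ j % b ∈ A j) ∧ Bad n := by
    intro n hn
    rw [hQ, mem_filter, mem_range] at hn
    exact hn
  have hphs : ∀ n < b ^ k, ∑ j : Fin k, ph n j = (n : ℤ) := by
    intro n hn
    have h1 := dig_sum b k n
    rw [Nat.mod_eq_of_lt hn] at h1
    rw [hph]
    simp only
    rw [Fin.sum_univ_eq_sum_range (fun j => ((n / b ^ j % b : ℕ) : ℤ) * (b : ℤ) ^ j) k]
    have h2 : ((∑ j ∈ range k, n / b ^ j % b * b ^ j : ℕ) : ℤ) = (n : ℤ) := by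
      exact_mod_cast h1
    rw [← h2]
    push_cast
    rfl
  have hphinj : Set.InjOn ph (Q : Set ℕ) := by
    intro n hn m hm hnm
    have e1 := hphs n (hQm n hn).1
    have e2 := hphs m (hQm m hm).1
    rw [hnm] at e1
    exact_mod_cast (e1.symm.trans e2)
  obtain ⟨W, hW⟩ : ∃ W : ℝ, W = ∏ j ∈ range k, ((A j).card : ℝ) := ⟨_, rfl⟩
  have hW0 : 0 < W := by
    rw [hW]
    exact prod_pos fun j hj => hA0 j (mem_range.1 hj)
  have hWp : ∀ x : Fin k → ℤ, ∏ j : Fin k, p j (x j) = 1 / W := by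
    intro x
    rw [hp, hW]
    simp only
    rw [one_div, ← prod_inv_distrib, ← Fin.prod_univ_eq_prod_range (fun j => ((A j).card : ℝ)⁻¹) k]
    simp only [one_div]
  rw [← hW]
  have hlow : (Q.card : ℝ) * (1 / W) ≤ θ := by
    refine le_trans ?_ h1
    calc (Q.card : ℝ) * (1 / W) = ∑ n ∈ Q, (1 / W) := by rw [sum_const, nsmul_eq_mul]
      _ = ∑ x ∈ Q.image ph, (1 / W) := by rw [sum_image hphinj]
      _ ≤ ∑ x ∈ Q.image ph, (if Bad (∑ j, x j) then ∏ j : Fin k, p j (x j) else 0) := by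
          apply sum_le_sum
          intro x hx
          obtain ⟨n, hn, rfl⟩ := mem_image.1 hx
          rw [if_pos, hWp]
          rw [hphs n (hQm n hn).1]
          exact (hQm n hn).2.2
      _ ≤ _ := by
          apply sum_le_sum_of_subset_of_nonneg
          · intro x hx
            obtain ⟨n, hn, rfl⟩ := mem_image.1 hx
            rw [Fintype.mem_piFinset]
            intro j
            rw [hph, hS]
            exact mem_image_of_mem _ ((hQm n hn).2.1 j j.2)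
          · intro x _ _
            split_ifs
            · rw [hWp]
              positivity
            · exact le_rfl
  rw [mul_one_div, div_le_iff₀ hW0] at hlow
  linarith

end Pool.Agent.Q26.LV
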