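import Pool.Agent.Q26.LV.D

set_option autoImplicit false

/-! Level of distribution with residue classes depending on the modulus: random sums. -/

namespace Pool.Agent.Q26.LV
open Finset
open Pool.Agent.H373R2.T7
open Pool.Agent.W93.AU
open Pool.Agent.W93.TD
open Pool.Agent.W93.LV
open Pool.Agent.Q26.PD
open Pool.Agent.Y885 (TLaw Rich rand_law geo_le)

/-- the weighted sum over the moduli `q ≤ N ^ (1 - ε)` coprime to `a + h q`, in the class of `a + h q` -/
noncomputable def VS (lam : ℕ → ℝ) (h : ℕ → ℤ) (ε : ℝ) (N y : ℕ) (a : ℤ) : ℝ :=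
  ∑ q ∈ (Icc 1 ⌊(N : ℝ) ^ (1 - ε)⌋₊).filter (fun q => (a + h q).toNat.Coprime q),
    lam q * (Fu (fun n => ArithmeticFunction.vonMangoldt n) y q (a + h q).toNat - (y : ℝ) / Nat.totient q)

open Classical in
/-- splitting according to the value of `h` -/
lemma VS_split (lam : ℕ → ℝ) (h : ℕ → ℤ) (ε : ℝ) (N y : ℕ) (a : ℤ) (H : ℕ) (hH : ∀ q, |h q| ≤ (H : ℤ)) :
    VS lam h ε N y a = ∑ j : Fin (2 * H + 1),
      WS (fun q => if h q = (j : ℤ) - H then lam q else 0) ε N y (a + ((j : ℤ) - H)).toNat := by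
  unfold VS WS
  simp only [sum_filter]
  rw [sum_comm]
  apply sum_congr rfl
  intro q _
  obtain ⟨h1, h2⟩ := abs_le.1 (hH q)
  have h3 : (h q + H).toNat < 2 * H + 1 := by omega
  have h4 : (((h q + H).toNat : ℕ) : ℤ) - H = h q := by omega
  rw [sum_eq_single (⟨(h q + H).toNat, h3⟩ : Fin (2 * H + 1))]
  · simp only [h4, if_true]
  · intro j _ hj
    have h5 : ¬ h q = (j : ℤ) - H := by
      intro h6
      apply hj
      apply Fin.ext
      show (j : ℕ) = (h q + H).toNat
      omega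
    rw [if_neg h5, zero_mul, ite_self]
  · intro h5
    exact absurd (mem_univ _) h5

open Classical in
/-- random sums -/
theorem lv_vary (b : ℕ) (hb : 2 ≤ b) (B D T U V : ℕ) (hB : 1 ≤ B) (η δ ε : ℝ) (hη : 0 < η) (hδ : 0 < δ) (hε : 0 < ε) :
    ∃ X₀ : ℕ, ∀ X, X₀ ≤ X → ∀ k : ℕ, X ≤ B * b ^ k → b ^ k ≤ B * X → ∀ (J : Finset ℕ) (S : ℕ → Finset ℤ) (p : ℕ → ℤ → ℝ),
      Rich δ D k J →
      (∀ j < k, (∀ x ∈ S j, 0 ≤ p j x ∧ |x| ≤ (B : ℤ) * (b : ℤ) ^ j) ∧ ∑ x ∈ S j, p j x = 1) →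
      (∀ j ∈ J, ∀ y : ℤ, ∑ x ∈ S j, (if y ≤ x ∧ (B : ℤ) * (x - y) ≤ (b : ℤ) ^ j then p j x else 0) ≤ 1 - η) →
      ∀ c : ℤ, |c| ≤ (B : ℤ) * X → ∀ L : ℕ, (L : ℝ) ≤ Real.log X ^ T → ∀ lam : Fin L → ℕ → ℝ, (∀ l q, |lam l q| ≤ Real.log X ^ T) →
      ∀ h : Fin L → ℕ → ℤ, (∀ l q, |((h l q : ℤ) : ℝ)| ≤ Real.log X ^ V) →
      ∑ x ∈ Fintype.piFinset (fun j : Fin k => S j),
        (if ¬ (Real.log X ^ V < ((c + ∑ j, x j : ℤ) : ℝ) → ∀ l, ∀ y ≤ B * X,
            |VS (lam l) (h l) ε X y (c + ∑ j, x j)| ≤ X / Real.log X ^ U) then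
          ∏ j : Fin k, p j (x j) else 0) ≤ 1 / Real.log X ^ U := by
  obtain ⟨X₁, h1⟩ := lv_rand b hb (B + 1) D T (U + V + 1) (by omega) η δ ε hη hδ hε
  obtain ⟨X₂, h2⟩ := ev_L' 3
  obtain ⟨X₃, h3⟩ : ∃ X₃ : ℕ, ∀ X : ℕ, X₃ ≤ X → Real.log X ^ V ≤ X := by
    have h4 := (Real.isLittleO_pow_log_id_atTop (n := V)).comp_tendsto (tendsto_natCast_atTop_atTop (R := ℝ))
    have h5 := h4.bound one_pos
    rw [Filter.eventually_atTop] at h5
    obtain ⟨X₃, h5⟩ := h5
    refine ⟨X₃ + 1, fun X hX => ?_⟩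
    have h6 := h5 X (by omega)
    simp only [Function.comp_apply, id, Real.norm_natCast, one_mul] at h6
    exact (le_abs_self _).trans h6
  refine ⟨X₁ + X₂ + X₃ + 1, fun X hX k hk1 hk2 J S p hJ hp hsp c hc L hL lam hlam h hh => ?_⟩
  have hlog : (3 : ℝ) ≤ Real.log X := h2 X (by omega)
  have hlog0 : (0 : ℝ) < Real.log X := by linarith
  have hVX := h3 X (by omega)
  obtain ⟨H, hH⟩ : ∃ H : ℕ, H = ⌊Real.log X ^ V⌋₊ := ⟨_, rfl⟩
  have hHle : (H : ℝ) ≤ Real.log X ^ V := by rw [hH]; exact Nat.floor_le (by positivity)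
  have hHX : H ≤ X := by exact_mod_cast hHle.trans hVX
  have hhH : ∀ l q, |h l q| ≤ (H : ℤ) := by
    intro l q
    have h4 : ((|h l q| : ℤ) : ℝ) ≤ Real.log X ^ V := by rw [Int.cast_abs]; exact hh l q
    have h5 : (((|h l q|).toNat : ℕ) : ℝ) ≤ Real.log X ^ V := by
      have h6 : (((|h l q|).toNat : ℕ) : ℤ) = |h l q| := Int.toNat_of_nonneg (abs_nonneg _)
      have h7 : (((|h l q|).toNat : ℕ) : ℝ) = ((|h l q| : ℤ) : ℝ) := by exact_mod_cast congrArg (Int.cast : ℤ → ℝ) h6
      rw [h7]; exact h4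
    have h6 : (|h l q|).toNat ≤ H := by rw [hH]; exact Nat.le_floor h5
    omega
  have hnum : (2 * (H : ℝ) + 1) ≤ Real.log X ^ (V + 1) := by
    have h4 : (1 : ℝ) ≤ Real.log X ^ V := one_le_pow₀ (by linarith)
    rw [pow_succ]
    nlinarith
  have hBB : B ≤ B + 1 := Nat.le_succ B
  have hbase : ∀ j : Fin (2 * H + 1), ∑ x ∈ Fintype.piFinset (fun j : Fin k => S j),
      (if ¬ (0 < (c + ((j : ℤ) - H)) + ∑ i, x i → ∀ l, ∀ y ≤ (B + 1) * X,
          |WS (fun q => if h l q = (j : ℤ) - H then lam l q else 0) ε X y ((c + ((j : ℤ) - H)) + ∑ i, x i).toNat| ≤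
            X / Real.log X ^ (U + V + 1)) then
        ∏ i : Fin k, p i (x i) else 0) ≤ 1 / Real.log X ^ (U + V + 1) := by
    intro j
    refine h1 X (by omega) k (hk1.trans (Nat.mul_le_mul_right _ hBB)) (hk2.trans (Nat.mul_le_mul_right _ hBB)) J S p hJ
      (fun i hi => ⟨fun x hx => ⟨((hp i hi).1 x hx).1, ((hp i hi).1 x hx).2.trans ?_⟩, (hp i hi).2⟩)
      (fun i hi y => le_trans (sum_le_sum fun x hx => ?_) (hsp i hi y)) (c + ((j : ℤ) - H)) ?_ L hL _ ?_
    · apply mul_le_mul_of_nonneg_right _ (by positivity)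
      exact_mod_cast hBB
    · have hpx : 0 ≤ p i x := ((hp i (hJ.1 i hi)).1 x hx).1
      by_cases hc1 : y ≤ x ∧ ((B + 1 : ℕ) : ℤ) * (x - y) ≤ (b : ℤ) ^ i
      · have hc2 : y ≤ x ∧ (B : ℤ) * (x - y) ≤ (b : ℤ) ^ i := by
          refine ⟨hc1.1, le_trans ?_ hc1.2⟩
          apply mul_le_mul_of_nonneg_right _ (by linarith [hc1.1])
          exact_mod_cast hBB
        rw [if_pos hc1, if_pos hc2]
      · rw [if_neg hc1]
        split_ifs
        · exact hpx
        · exact le_rfl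
    · have h4 := j.2
      have h5 : |((j : ℕ) : ℤ) - H| ≤ H := by rw [abs_le]; constructor <;> omega
      have h6 := abs_add_le c (((j : ℕ) : ℤ) - H)
      push_cast
      have h7 : (H : ℤ) ≤ X := by exact_mod_cast hHX
      linarith
    · intro l q
      show |if h l q = (j : ℤ) - H then lam l q else 0| ≤ _
      split_ifs
      · exact hlam l q
      · rw [abs_zero]; positivity
  -- union bound
  have hw : ∀ x ∈ Fintype.piFinset (fun j : Fin k => S j), 0 ≤ ∏ j : Fin k, p j (x j) := by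
    intro x hx
    rw [Fintype.mem_piFinset] at hx
    exact prod_nonneg fun j _ => ((hp j j.2).1 _ (hx j)).1
  have hU1 : (2 * (H : ℝ) + 1) * (1 / Real.log X ^ (U + V + 1)) ≤ 1 / Real.log X ^ U := by
    rw [show U + V + 1 = (V + 1) + U by ring, pow_add, mul_one_div, div_le_div_iff₀ (by positivity) (by positivity), one_mul]
    exact mul_le_mul_of_nonneg_right hnum (by positivity)
  calc _ ≤ ∑ x ∈ Fintype.piFinset (fun j : Fin k => S j), ∑ j : Fin (2 * H + 1),
      (if ¬ (0 < (c + ((j : ℤ) - H)) + ∑ i, x i → ∀ l, ∀ y ≤ (B + 1) * X,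
          |WS (fun q => if h l q = (j : ℤ) - H then lam l q else 0) ε X y ((c + ((j : ℤ) - H)) + ∑ i, x i).toNat| ≤
            X / Real.log X ^ (U + V + 1)) then
        ∏ i : Fin k, p i (x i) else 0) := by
        apply sum_le_sum
        intro x hx
        have hx0 := hw x hx
        have hnn : ∀ j ∈ (univ : Finset (Fin (2 * H + 1))), 0 ≤ (if ¬ (0 < (c + ((j : ℤ) - H)) + ∑ i, x i → ∀ l, ∀ y ≤ (B + 1) * X,
          |WS (fun q => if h l q = (j : ℤ) - H then lam l q else 0) ε X y ((c + ((j : ℤ) - H)) + ∑ i, x i).toNat| ≤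
            X / Real.log X ^ (U + V + 1)) then
            ∏ i : Fin k, p i (x i) else 0) := by
          intro j _
          split_ifs
          · exact le_rfl
          · exact hx0
        by_cases hall : ∀ j : Fin (2 * H + 1), (0 < (c + ((j : ℤ) - H)) + ∑ i, x i → ∀ l, ∀ y ≤ (B + 1) * X,
          |WS (fun q => if h l q = (j : ℤ) - H then lam l q else 0) ε X y ((c + ((j : ℤ) - H)) + ∑ i, x i).toNat| ≤
            X / Real.log X ^ (U + V + 1))
        · have hgood : Real.log X ^ V < ((c + ∑ j, x j : ℤ) : ℝ) → ∀ l, ∀ y ≤ B * X,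
              |VS (lam l) (h l) ε X y (c + ∑ j, x j)| ≤ X / Real.log X ^ U := by
            intro hpos l y hy
            rw [VS_split (lam l) (h l) ε X y _ H (hhH l)]
            have hposZ : (H : ℤ) < c + ∑ j, x j := by
              have h4 : (H : ℝ) < ((c + ∑ j, x j : ℤ) : ℝ) := lt_of_le_of_lt hHle hpos
              exact_mod_cast h4
            have h5 : ∀ j : Fin (2 * H + 1),
                |WS (fun q => if h l q = (j : ℤ) - H then lam l q else 0) ε X y ((c + ∑ i, x i) + ((j : ℤ) - H)).toNat| ≤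
                  X / Real.log X ^ (U + V + 1) := by
              intro j
              have h6 : (c + ∑ i, x i) + ((j : ℤ) - H) = (c + ((j : ℤ) - H)) + ∑ i, x i := by ring
              rw [h6]
              apply hall j
              · rw [← h6]
                have := j.2
                omega
              · exact hy.trans (Nat.mul_le_mul_right _ hBB)
            refine (abs_sum_le_sum_abs _ _).trans ((sum_le_sum fun j _ => h5 j).trans ?_)
            rw [sum_const, card_univ, Fintype.card_fin, nsmul_eq_mul]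
            push_cast
            calc (2 * (H : ℝ) + 1) * (X / Real.log X ^ (U + V + 1)) =
                X * ((2 * (H : ℝ) + 1) * (1 / Real.log X ^ (U + V + 1))) := by ring
              _ ≤ X * (1 / Real.log X ^ U) := mul_le_mul_of_nonneg_left hU1 (Nat.cast_nonneg _)
              _ = _ := by ring
          rw [if_neg (not_not.2 hgood)]
          exact sum_nonneg hnn
        · push Not at hall
          obtain ⟨j, hj⟩ := hall
          refine le_trans ?_ (single_le_sum hnn (mem_univ j))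
          have hbad : ¬ (0 < (c + ((j : ℤ) - H)) + ∑ i, x i → ∀ l, ∀ y ≤ (B + 1) * X,
            |WS (fun q => if h l q = (j : ℤ) - H then lam l q else 0) ε X y ((c + ((j : ℤ) - H)) + ∑ i, x i).toNat| ≤
            X / Real.log X ^ (U + V + 1)) := by
            intro hcon
            obtain ⟨g1, l, y, g2, g3⟩ := hj
            exact absurd (hcon g1 l y g2) (not_le.2 g3)
          rw [if_pos hbad]
          split_ifs
          · exact hx0
          · exact le_rfl
    _ = ∑ j : Fin (2 * H + 1), ∑ x ∈ Fintype.piFinset (fun j : Fin k => S j),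
      (if ¬ (0 < (c + ((j : ℤ) - H)) + ∑ i, x i → ∀ l, ∀ y ≤ (B + 1) * X,
          |WS (fun q => if h l q = (j : ℤ) - H then lam l q else 0) ε X y ((c + ((j : ℤ) - H)) + ∑ i, x i).toNat| ≤
            X / Real.log X ^ (U + V + 1)) then
        ∏ i : Fin k, p i (x i) else 0) := sum_comm
    _ ≤ ∑ _j : Fin (2 * H + 1), 1 / Real.log X ^ (U + V + 1) := sum_le_sum fun j _ => hbase j
    _ = (2 * (H : ℝ) + 1) * (1 / Real.log X ^ (U + V + 1)) := by
        rw [sum_const, card_univ, Fintype.card_fin, nsmul_eq_mul]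
        push_cast
        ring
    _ ≤ _ := hU1

end Pool.Agent.Q26.LV
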